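import Mathlib

set_option autoImplicit false
set_option linter.unusedSectionVars false

namespace Pool.Agent.R945.JD

open Finset Matrix

section zmod

variable {n : ℕ} [NeZero n]

lemma sum_range_zmod' {M : Type*} [AddCommMonoid M] (f : ZMod n → M) :
    ∑ i ∈ range n, f (i : ZMod n) = ∑ a : ZMod n, f a := by
  apply Finset.sum_bij (fun (i : ℕ) _ => (i : ZMod n))
  · intro a _; simp
  · intro a ha b hb hab
    rw [Finset.mem_range] at ha hb
    have := congrArg ZMod.val hab
    rwa [ZMod.val_natCast_of_lt ha, ZMod.val_natCast_of_lt hb] at this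
  · intro b _
    exact ⟨b.val, by simpa using ZMod.val_lt b, by simp⟩
  · intro a _; rfl

/-- folding along `x ↦ 1 - x` -/
lemma fold1 {M : Type*} [AddCommMonoid M] (r : ℕ) (hn : n = 2 * r) (F : ZMod n → M) :
    ∑ x : ZMod n, F x = ∑ a : Fin r, (F ((a : ℕ) + 1) + F (-((a : ℕ) : ZMod n))) := by
  rw [← sum_range_zmod']
  have h3 : ∑ i ∈ range n, F (i : ZMod n) = ∑ i ∈ range (r + r), F (i : ZMod n) := by
    have : n = r + r := by omega
    rw [← this]
  -- shift by one
  have h4 : ∑ i ∈ range n, F (i : ZMod n) = ∑ i ∈ range n, F ((i : ZMod n) + 1) := by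
    rw [sum_range_zmod', sum_range_zmod' (fun x => F (x + 1))]
    symm
    exact Fintype.sum_equiv (Equiv.addRight (1 : ZMod n)) _ _ (fun _ => rfl)
  rw [h4]
  have h5 : ∑ i ∈ range n, F ((i : ZMod n) + 1) = ∑ i ∈ range (r + r), F ((i : ZMod n) + 1) := by
    have : n = r + r := by omega
    rw [← this]
  rw [h5, Finset.sum_range_add, Finset.sum_add_distrib]
  congr 1
  · rw [Fin.sum_univ_eq_sum_range (fun j => F ((j : ZMod n) + 1))]
  · rw [Fin.sum_univ_eq_sum_range (fun j => F (-(j : ZMod n)))]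
    rw [← Finset.sum_range_reflect]
    apply Finset.sum_congr rfl
    intro i hi
    rw [Finset.mem_range] at hi
    congr 1
    have e : ((r + (r - 1 - i) : ℕ) : ZMod n) + 1 + (i : ZMod n) = 0 := by
      have : ((r + (r - 1 - i) : ℕ) : ZMod n) + 1 + (i : ZMod n) =
          ((r + (r - 1 - i) + 1 + i : ℕ) : ZMod n) := by push_cast; ring
      rw [this]
      have e2 : r + (r - 1 - i) + 1 + i = n := by omega
      rw [e2]; simp
    exact eq_neg_of_add_eq_zero_left e

/-- folding along `x ↦ - x` -/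
lemma fold0 {M : Type*} [AddCommGroup M] (r : ℕ) (hn : n = 2 * r) (F : ZMod n → M) :
    ∑ x : ZMod n, F x = ∑ b : Fin r, (F ((b : ℕ) : ZMod n) + F (-((b : ℕ) : ZMod n))) - F 0 + F (r : ZMod n) := by
  rw [fold1 r hn F, Finset.sum_add_distrib, Finset.sum_add_distrib]
  have h1 : ∑ a : Fin r, F (((a : ℕ) : ZMod n) + 1) =
      ∑ a : Fin r, F ((a : ℕ) : ZMod n) - F 0 + F (r : ZMod n) := by
    rw [Fin.sum_univ_eq_sum_range (fun j => F ((j : ZMod n) + 1)),
      Fin.sum_univ_eq_sum_range (fun j => F (j : ZMod n))]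
    have h2 := Finset.sum_range_succ (fun j => F ((j : ℕ) : ZMod n)) r
    have h3 := Finset.sum_range_succ' (fun j => F ((j : ℕ) : ZMod n)) r
    rw [h2] at h3
    have h4 : ∑ j ∈ range r, F ((j : ZMod n) + 1) = ∑ j ∈ range r, F ((j + 1 : ℕ) : ZMod n) := by
      apply Finset.sum_congr rfl; intro j _; push_cast; rfl
    rw [h4]
    rw [Nat.cast_zero] at h3
    rw [sub_add_eq_add_sub, h3]
    abel
  rw [h1]
  abel

end zmod

section key

variable {n : ℕ} [NeZero n] {K : Type*} [Field K] (r : ℕ) (hn : n = 2 * r) (ψ : AddChar (ZMod n) K)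
  (hψ : ψ.IsPrimitive) (g : K) (hg : g ^ 2 = ψ 1) (hg0 : g ≠ 0)

include hψ in
lemma sum_psi (c : ZMod n) : ∑ x : ZMod n, ψ (c * x) = if c = 0 then (n : K) else 0 := by
  have h := AddChar.sum_mulShift c hψ
  rw [ZMod.card] at h
  push_cast at h
  rw [← h]
  apply Finset.sum_congr rfl
  intro x _
  rw [mul_comm]

lemma psi_ne (x : ZMod n) : ψ x ≠ 0 := by
  intro h
  have h1 : ψ x * ψ (-x) = 1 := by rw [← AddChar.map_add_eq_mul]; simp
  rw [h, zero_mul] at h1
  exact zero_ne_one h1

lemma psi_neg (x : ZMod n) : ψ (-x) = (ψ x)⁻¹ := by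
  apply eq_inv_of_mul_eq_one_left
  rw [← AddChar.map_add_eq_mul]; simp

include hg in
lemma psi_nat (k : ℕ) : ψ (k : ZMod n) = g ^ (2 * k) := by
  rw [pow_mul, hg, ← AddChar.map_nsmul_eq_pow, nsmul_eq_mul, mul_one]

/-- Fourier coefficients -/
def lam (ψ : AddChar (ZMod n) K) (f : ZMod n → K) (k : ZMod n) : K := ∑ x, f x * ψ (k * x)

lemma lam_neg (f : ZMod n → K) (hf : ∀ x, f (1 - x) = - f x) (k : ZMod n) :
    lam ψ f (-k) = - (ψ k)⁻¹ * lam ψ f k := by
  unfold lam
  rw [Finset.mul_sum]
  apply Fintype.sum_equiv (Equiv.subLeft (1 : ZMod n))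
  intro x
  rw [Equiv.subLeft_apply, hf]
  have e : k * (1 - x) = k + -k * x := by ring
  rw [e, AddChar.map_add_eq_mul]
  have := psi_ne ψ k
  field_simp

/-- the three matrices -/
noncomputable def UU (n : ℕ) (r : ℕ) (ψ : AddChar (ZMod n) K) (g : K) : Matrix (Fin r) (Fin r) K :=
  Matrix.of fun a k => if k.val = 0 then 1 else
    (g ^ k.val)⁻¹ * ψ ((k.val : ZMod n) * ((a.val : ZMod n) + 1)) +
    g ^ k.val * (ψ ((k.val : ZMod n) * ((a.val : ZMod n) + 1)))⁻¹

noncomputable def VV (n : ℕ) (r : ℕ) (ψ : AddChar (ZMod n) K) : Matrix (Fin r) (Fin r) K :=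
  Matrix.of fun k b => if k.val = 0 then (if b.val = 0 then 1 else 0) else
    ψ ((k.val : ZMod n) * (b.val : ZMod n)) - (ψ ((k.val : ZMod n) * (b.val : ZMod n)))⁻¹

def Q1 (n : ℕ) (r : ℕ) {R : Type*} [CommRing R] (f : ZMod n → R) : Matrix (Fin r) (Fin r) R :=
  Matrix.of fun a b => if b.val = 0 then 1 else
    f (((a.val : ZMod n) + 1) - (b.val : ZMod n)) - f (((a.val : ZMod n) + 1) + (b.val : ZMod n))

include hn hg hg0 in
lemma Q1_mul (f : ZMod n → K) (hf : ∀ x, f (1 - x) = - f x) :
    Q1 n r f * (VV n r ψ)ᵀ = UU n r ψ g *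
      diagonal (fun k : Fin r => if k.val = 0 then 1 else - ((g ^ k.val)⁻¹ * lam ψ f (k.val : ZMod n))) := by
  ext a k
  rw [Matrix.mul_diagonal, Matrix.mul_apply]
  by_cases hk : k.val = 0
  · simp only [Matrix.transpose_apply, VV, Matrix.of_apply, hk, if_true, UU, mul_ite, mul_one, mul_zero]
    rw [Finset.sum_eq_single k]
    · rw [if_pos hk]; simp [Q1, hk]
    · intro b _ hb
      rw [if_neg]
      intro h
      apply hb
      exact Fin.ext (by omega)
    · intro h; exact absurd (Finset.mem_univ k) h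
  · set h : ZMod n → K := fun x => ψ ((k.val : ZMod n) * x) - ψ (-((k.val : ZMod n) * x)) with hh
    set y : ZMod n := (a.val : ZMod n) + 1 with hy
    have h0 : h 0 = 0 := by simp [hh]
    have hodd : ∀ x, h (-x) = - h x := by
      intro x; rw [hh]; simp only; rw [mul_neg, neg_neg]; ring
    have hr0 : h (r : ZMod n) = 0 := by
      have e : -((k.val : ZMod n) * (r : ZMod n)) = (k.val : ZMod n) * (r : ZMod n) := by
        rw [neg_eq_iff_add_eq_zero]
        have : ((n : ℕ) : ZMod n) = 0 := ZMod.natCast_self n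
        have h2 : ((n : ℕ) : ZMod n) = 2 * (r : ZMod n) := by
          have := congrArg (Nat.cast : ℕ → ZMod n) hn
          push_cast at this; simpa using this
        rw [this] at h2
        linear_combination (-(k.val : ZMod n)) * h2
      rw [hh]; simp only; rw [e]; ring
    have h1 : ∀ b : Fin r, Q1 n r f a b * (VV n r ψ)ᵀ b k =
        (f (y - (b.val : ZMod n)) * h (b.val : ZMod n)) + f (y - -(b.val : ZMod n)) * h (-(b.val : ZMod n)) := by
      intro b
      rw [hodd]
      simp only [Matrix.transpose_apply, VV, Matrix.of_apply, hk, if_false, Q1, hh, psi_neg, sub_neg_eq_add, ← hy]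
      by_cases hb : b.val = 0
      · simp [hb]
      · rw [if_neg hb]; ring
    rw [Finset.sum_congr rfl (fun b _ => h1 b)]
    have h2 := fold0 r hn (fun x => f (y - x) * h x)
    simp only [h0, hr0, mul_zero, sub_zero, add_zero] at h2
    rw [← h2]
    have h3 : ∑ x : ZMod n, f (y - x) * h x = ψ ((k.val : ZMod n) * y) * lam ψ f (-(k.val : ZMod n)) -
        ψ (-((k.val : ZMod n) * y)) * lam ψ f (k.val : ZMod n) := by
      unfold lam
      rw [Finset.mul_sum, Finset.mul_sum, ← Finset.sum_sub_distrib]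
      apply Fintype.sum_equiv (Equiv.subLeft y)
      intro x
      rw [Equiv.subLeft_apply, hh]
      simp only
      have e1 : (k.val : ZMod n) * x = (k.val : ZMod n) * y + -(k.val : ZMod n) * (y - x) := by ring
      have e2 : -((k.val : ZMod n) * x) = -((k.val : ZMod n) * y) + (k.val : ZMod n) * (y - x) := by ring
      rw [e2, AddChar.map_add_eq_mul]
      conv_lhs => rw [e1]
      rw [AddChar.map_add_eq_mul]
      ring
    rw [h3, lam_neg ψ f hf, psi_neg]
    have e4 : ψ (k.val : ZMod n) = g ^ k.val * g ^ k.val := by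
      rw [psi_nat ψ g hg, two_mul, pow_add]
    have hgk : g ^ k.val ≠ 0 := pow_ne_zero _ hg0
    have hy0 := psi_ne ψ ((k.val : ZMod n) * y)
    simp only [UU, Matrix.of_apply, hk, if_false, e4, ← hy]
    field_simp
    ring

include hn hψ hg hg0 in
lemma UU_gram : (UU n r ψ g)ᵀ * UU n r ψ g =
    diagonal (fun k : Fin r => if k.val = 0 then (r : K) else (n : K)) := by
  -- the functions `F_l`
  have hF : ∀ (l : ℕ) (a : Fin r), (g ^ l)⁻¹ * ψ ((l : ZMod n) * (-(a.val : ZMod n))) =
      g ^ l * (ψ ((l : ZMod n) * ((a.val : ZMod n) + 1)))⁻¹ := by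
    intro l a
    have e1 : (l : ZMod n) * (-(a.val : ZMod n)) = (l : ZMod n) + -((l : ZMod n) * ((a.val : ZMod n) + 1)) := by ring
    rw [e1, AddChar.map_add_eq_mul, psi_neg, psi_nat ψ g hg, two_mul, pow_add]
    have hgl : g ^ l ≠ 0 := pow_ne_zero _ hg0
    field_simp
  -- sums
  have hS : ∀ l : ℕ, 0 < l → l < n → ∑ a : Fin r, ((g ^ l)⁻¹ * ψ ((l : ZMod n) * ((a.val : ZMod n) + 1)) +
      g ^ l * (ψ ((l : ZMod n) * ((a.val : ZMod n) + 1)))⁻¹) = 0 := by
    intro l hl0 hl
    have h1 := fold1 r hn (fun x => (g ^ l)⁻¹ * ψ ((l : ZMod n) * x))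
    rw [← Finset.mul_sum, sum_psi ψ hψ, if_neg, mul_zero] at h1
    · simp only [hF] at h1
      exact h1.symm
    · intro h
      rw [ZMod.natCast_eq_zero_iff] at h
      have := Nat.le_of_dvd hl0 h
      omega
  ext j k
  rw [Matrix.mul_apply]
  simp only [Matrix.transpose_apply, UU, Matrix.of_apply, Matrix.diagonal_apply]
  have hj := j.2
  have hk := k.2
  by_cases hj0 : j.val = 0
  · by_cases hk0 : k.val = 0
    · have hjk : j = k := Fin.ext (by omega)
      simp [hj0, hk0, hjk]
    · have hjk : j ≠ k := by rintro rfl; exact hk0 hj0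
      simp only [hj0, if_true, one_mul, hk0, if_false, if_neg hjk]
      exact hS k.val (by omega) (by omega)
  · by_cases hk0 : k.val = 0
    · have hjk : j ≠ k := by rintro rfl; exact hj0 hk0
      simp only [hj0, if_true, mul_one, hk0, if_false, if_neg hjk]
      exact hS j.val (by omega) (by omega)
    · simp only [hj0, hk0, if_false]
      -- wlog on the order
      have key : ∀ (j k : Fin r), j.val ≠ 0 → k.val ≤ j.val →
          ∑ a : Fin r, ((g ^ j.val)⁻¹ * ψ ((j.val : ZMod n) * ((a.val : ZMod n) + 1)) +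
          g ^ j.val * (ψ ((j.val : ZMod n) * ((a.val : ZMod n) + 1)))⁻¹) *
          ((g ^ k.val)⁻¹ * ψ ((k.val : ZMod n) * ((a.val : ZMod n) + 1)) +
          g ^ k.val * (ψ ((k.val : ZMod n) * ((a.val : ZMod n) + 1)))⁻¹) =
          if j = k then (n : K) else 0 := by
        intro j k hj0 hle
        have hj := j.2
        have hk := k.2
        have h1 : ∀ a : Fin r, ((g ^ j.val)⁻¹ * ψ ((j.val : ZMod n) * ((a.val : ZMod n) + 1)) +
          g ^ j.val * (ψ ((j.val : ZMod n) * ((a.val : ZMod n) + 1)))⁻¹) *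
          ((g ^ k.val)⁻¹ * ψ ((k.val : ZMod n) * ((a.val : ZMod n) + 1)) +
          g ^ k.val * (ψ ((k.val : ZMod n) * ((a.val : ZMod n) + 1)))⁻¹) =
          ((g ^ (j.val + k.val))⁻¹ * ψ (((j.val + k.val : ℕ) : ZMod n) * ((a.val : ZMod n) + 1)) +
          g ^ (j.val + k.val) * (ψ (((j.val + k.val : ℕ) : ZMod n) * ((a.val : ZMod n) + 1)))⁻¹) +
          ((g ^ (j.val - k.val))⁻¹ * ψ (((j.val - k.val : ℕ) : ZMod n) * ((a.val : ZMod n) + 1)) +
          g ^ (j.val - k.val) * (ψ (((j.val - k.val : ℕ) : ZMod n) * ((a.val : ZMod n) + 1)))⁻¹) := by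
          intro a
          have e1 : ((j.val + k.val : ℕ) : ZMod n) * ((a.val : ZMod n) + 1) =
              (j.val : ZMod n) * ((a.val : ZMod n) + 1) + (k.val : ZMod n) * ((a.val : ZMod n) + 1) := by
            push_cast; ring
          have e2 : ((j.val - k.val : ℕ) : ZMod n) * ((a.val : ZMod n) + 1) =
              (j.val : ZMod n) * ((a.val : ZMod n) + 1) + -((k.val : ZMod n) * ((a.val : ZMod n) + 1)) := by
            rw [Nat.cast_sub hle]; ring
          have e3 : g ^ j.val = g ^ (j.val - k.val) * g ^ k.val := by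
            rw [← pow_add]; congr 1; omega
          rw [e1, e2, AddChar.map_add_eq_mul, AddChar.map_add_eq_mul, psi_neg, pow_add, e3]
          have := psi_ne ψ ((j.val : ZMod n) * ((a.val : ZMod n) + 1))
          have := psi_ne ψ ((k.val : ZMod n) * ((a.val : ZMod n) + 1))
          have : g ^ k.val ≠ 0 := pow_ne_zero _ hg0
          have : g ^ (j.val - k.val) ≠ 0 := pow_ne_zero _ hg0
          field_simp
          ring
        rw [Finset.sum_congr rfl (fun a _ => h1 a), Finset.sum_add_distrib, hS (j.val + k.val) (by omega) (by omega),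
          zero_add]
        by_cases hjk : j = k
        · subst hjk
          rw [if_pos rfl]
          simp
          rw [hn]
          push_cast
          ring
        · rw [if_neg hjk]
          apply hS
          · have : j.val ≠ k.val := fun h => hjk (Fin.ext h)
            omega
          · omega
      rcases le_total k.val j.val with hle | hle
      · exact key j k hj0 hle
      · have h1 := key k j hk0 hle
        rw [← Finset.sum_congr rfl (fun a _ => mul_comm _ _)] at h1
        rw [h1]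
        by_cases hjk : j = k
        · rw [if_pos hjk, if_pos hjk.symm]
        · rw [if_neg hjk, if_neg (Ne.symm hjk)]

include hn hψ in
lemma VV_gram (h2 : (2 : K) ≠ 0) : VV n r ψ * (VV n r ψ)ᵀ =
    diagonal (fun k : Fin r => if k.val = 0 then (1 : K) else - (n : K)) := by
  ext j k
  rw [Matrix.mul_apply]
  simp only [Matrix.transpose_apply, VV, Matrix.of_apply, Matrix.diagonal_apply]
  have hj := j.2
  have hk := k.2
  by_cases hj0 : j.val = 0
  · simp only [hj0, if_true, ite_mul, one_mul, zero_mul]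
    rw [Finset.sum_eq_single j (by
      intro b _ hb
      rw [if_neg]
      intro h; exact hb (Fin.ext (by omega))) (by intro h; exact absurd (Finset.mem_univ j) h)]
    rw [if_pos hj0]
    by_cases hk0 : k.val = 0
    · have hjk : j = k := Fin.ext (by omega)
      simp [hj0, hk0, hjk]
    · have hjk : j ≠ k := by rintro rfl; exact hk0 hj0
      simp [hj0, hk0, hjk]
  · by_cases hk0 : k.val = 0
    · have hjk : j ≠ k := by rintro rfl; exact hj0 hk0
      simp only [hk0, if_true, mul_ite, mul_one, mul_zero, hj0, if_false, if_neg hjk]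
      rw [Finset.sum_eq_single k (by
        intro b _ hb
        rw [if_neg]
        intro h; exact hb (Fin.ext (by omega))) (by intro h; exact absurd (Finset.mem_univ k) h)]
      simp [hk0]
    · simp only [hj0, hk0, if_false]
      set F : ZMod n → K := fun x => (ψ ((j.val : ZMod n) * x) - (ψ ((j.val : ZMod n) * x))⁻¹) *
        (ψ ((k.val : ZMod n) * x) - (ψ ((k.val : ZMod n) * x))⁻¹) with hF
      have hF0 : F 0 = 0 := by simp [hF]
      have hFr : F (r : ZMod n) = 0 := by
        have e : ψ ((j.val : ZMod n) * (r : ZMod n)) = (ψ ((j.val : ZMod n) * (r : ZMod n)))⁻¹ := by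
          rw [← psi_neg]
          congr 1
          symm
          rw [neg_eq_iff_add_eq_zero]
          have : ((n : ℕ) : ZMod n) = 0 := ZMod.natCast_self n
          have h2 : ((n : ℕ) : ZMod n) = 2 * (r : ZMod n) := by
            have := congrArg (Nat.cast : ℕ → ZMod n) hn
            push_cast at this; simpa using this
          rw [this] at h2
          linear_combination (-(j.val : ZMod n)) * h2
        rw [hF]; simp only
        rw [← e]; ring
      have hFe : ∀ x, F (-x) = F x := by
        intro x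
        rw [hF]; simp only
        rw [mul_neg, mul_neg, psi_neg, psi_neg, inv_inv, inv_inv]; ring
      have h3 := fold0 r hn F
      simp only [hF0, hFr, hFe, sub_zero, add_zero, ← two_mul, ← Finset.mul_sum] at h3
      apply mul_left_cancel₀ h2
      rw [← h3]
      have h4 : ∀ x, F x = ψ (((j.val + k.val : ℕ) : ZMod n) * x) + ψ (-((j.val + k.val : ℕ) : ZMod n) * x)
          - ψ (((j.val : ZMod n) - (k.val : ZMod n)) * x) - ψ (((k.val : ZMod n) - (j.val : ZMod n)) * x) := by
        intro x
        have e1 : ((j.val + k.val : ℕ) : ZMod n) * x = (j.val : ZMod n) * x + (k.val : ZMod n) * x := by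
          push_cast; ring
        have e2 : -((j.val + k.val : ℕ) : ZMod n) * x = -((j.val : ZMod n) * x) + -((k.val : ZMod n) * x) := by
          push_cast; ring
        have e3 : ((j.val : ZMod n) - (k.val : ZMod n)) * x = (j.val : ZMod n) * x + -((k.val : ZMod n) * x) := by ring
        have e4 : ((k.val : ZMod n) - (j.val : ZMod n)) * x = -((j.val : ZMod n) * x) + (k.val : ZMod n) * x := by ring
        rw [e1, e2, e3, e4]
        simp only [AddChar.map_add_eq_mul, psi_neg, hF]
        ring
      rw [Finset.sum_congr rfl (fun x _ => h4 x), Finset.sum_sub_distrib, Finset.sum_sub_distrib,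
        Finset.sum_add_distrib, sum_psi ψ hψ, sum_psi ψ hψ, sum_psi ψ hψ, sum_psi ψ hψ]
      have n1 : ((j.val + k.val : ℕ) : ZMod n) ≠ 0 := by
        intro h
        rw [ZMod.natCast_eq_zero_iff] at h
        have := Nat.le_of_dvd (by omega) h
        omega
      rw [if_neg n1, if_neg (neg_ne_zero.mpr n1)]
      by_cases hjk : j = k
      · subst hjk
        simp
        ring
      · have n2 : (j.val : ZMod n) - (k.val : ZMod n) ≠ 0 := by
          intro h
          have h1 := sub_eq_zero.mp h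
          have := congrArg ZMod.val h1
          rw [ZMod.val_natCast_of_lt (by omega), ZMod.val_natCast_of_lt (by omega)] at this
          exact hjk (Fin.ext this)
        have n3 : (k.val : ZMod n) - (j.val : ZMod n) ≠ 0 := by
          intro h; apply n2; linear_combination -h
        rw [if_neg n2, if_neg n3, if_neg hjk]
        ring

lemma prod_fin_split (r : ℕ) (hr : 0 < r) (c : K) (F : ℕ → K) :
    ∏ k : Fin r, (if k.val = 0 then c else F k.val) = c * ∏ k ∈ Ico 1 r, F k := by
  rw [Fin.prod_univ_eq_prod_range (fun k => if k = 0 then c else F k)]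
  obtain ⟨s, rfl⟩ : ∃ s, r = s + 1 := ⟨r - 1, by omega⟩
  rw [Finset.prod_range_succ', mul_comm]
  simp only [if_true]
  congr 1
  rw [Finset.prod_Ico_eq_prod_range]
  apply Finset.prod_congr rfl
  intro i _
  rw [if_neg (by omega), add_comm]

include hn hψ hg hg0 in
/-- the key identity -/
theorem key (hr : 0 < r) (h2 : (2 : K) ≠ 0) (hnK : (n : K) ≠ 0) (f : ZMod n → K)
    (hf : ∀ x, f (1 - x) = - f x) :
    (-1) ^ (r - 1) * (Q1 n r f).det ^ 2 = r * ∏ k ∈ Ico 1 r, ((g ^ k)⁻¹ * lam ψ f (k : ZMod n)) ^ 2 := by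
  have h1 := congrArg Matrix.det (Q1_mul r hn ψ g hg hg0 f hf)
  have h3 := congrArg Matrix.det (UU_gram r hn ψ hψ g hg hg0)
  have h4 := congrArg Matrix.det (VV_gram r hn ψ hψ h2)
  rw [det_mul, det_mul, det_transpose, det_diagonal,
    prod_fin_split r hr 1 (fun k => - ((g ^ k)⁻¹ * lam ψ f (k : ZMod n)))] at h1
  rw [det_mul, det_transpose, det_diagonal, prod_fin_split r hr (r : K) (fun _ => (n : K))] at h3
  rw [det_mul, det_transpose, det_diagonal, prod_fin_split r hr 1 (fun _ => -(n : K))] at h4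
  simp only [Finset.prod_const, Nat.card_Ico, one_mul] at h1 h3 h4
  set A := (Q1 n r f).det
  set V := (VV n r ψ).det
  set U := (UU n r ψ g).det
  have h5 : (∏ k ∈ Ico 1 r, -((g ^ k)⁻¹ * lam ψ f (k : ZMod n))) ^ 2 =
      ∏ k ∈ Ico 1 r, ((g ^ k)⁻¹ * lam ψ f (k : ZMod n)) ^ 2 := by
    rw [← Finset.prod_pow]
    apply Finset.prod_congr rfl
    intro k _
    ring
  rw [← h5]
  set L := ∏ k ∈ Ico 1 r, -((g ^ k)⁻¹ * lam ψ f (k : ZMod n))
  have h6 : (A * V) ^ 2 = (U * L) ^ 2 := by rw [h1]
  have h7 : A ^ 2 * (-(n : K)) ^ (r - 1) = r * (n : K) ^ (r - 1) * L ^ 2 := by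
    rw [← h4, ← h3]
    linear_combination h6
  rw [neg_pow (n : K)] at h7
  have h8 : (n : K) ^ (r - 1) ≠ 0 := pow_ne_zero _ hnK
  apply mul_right_cancel₀ h8
  linear_combination h7

end key

end Pool.Agent.R945.JD
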