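import Mathlib
import Pool.Agent.R945.JD.Key

set_option autoImplicit false
set_option linter.unusedSectionVars false

namespace Pool.Agent.R945.JD

open Finset Matrix

variable {n : ℕ} [NeZero n]

lemma fold1_prod {M : Type*} [CommMonoid M] (r : ℕ) (hn : n = 2 * r) (F : ZMod n → M) :
    ∏ x : ZMod n, F x = ∏ a : Fin r, (F ((a : ℕ) + 1) * F (-((a : ℕ) : ZMod n))) := by
  have h := fold1 (M := Additive M) r hn (fun x => Additive.ofMul (F x))
  have h2 := congrArg Additive.toMul h
  rw [toMul_sum, toMul_sum] at h2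
  exact h2

section field

variable {K : Type*} [Field K] (ψ : AddChar (ZMod n) K) (hψ : ψ.IsPrimitive)

include hψ in
lemma det_circ (hnK : (n : K) ≠ 0) (f : ZMod n → K) :
    (Matrix.of fun x y : ZMod n => f (x - y) + 1).det =
      ∏ k : ZMod n, (lam ψ f k + if k = 0 then (n : K) else 0) := by
  set W : Matrix (ZMod n) (ZMod n) K := Matrix.of fun b k => ψ (-(k * b)) with hW
  set W' : Matrix (ZMod n) (ZMod n) K := Matrix.of fun k b => ψ (k * b) with hW'
  have h1 : W * W' = (n : K) • (1 : Matrix (ZMod n) (ZMod n) K) := by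
    ext a b
    rw [Matrix.mul_apply]
    simp only [hW, hW', Matrix.of_apply, Matrix.smul_apply, Matrix.one_apply, smul_eq_mul]
    have e : ∀ k : ZMod n, ψ (-(k * a)) * ψ (k * b) = ψ ((b - a) * k) := by
      intro k
      rw [← AddChar.map_add_eq_mul]
      congr 1; ring
    rw [Finset.sum_congr rfl (fun k _ => e k), sum_psi ψ hψ]
    by_cases hab : a = b
    · subst hab; simp
    · rw [if_neg (sub_ne_zero.mpr (Ne.symm hab)), if_neg hab]; simp
  have hdW : W.det ≠ 0 := by
    intro h0
    have h2 := congrArg Matrix.det h1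
    rw [det_mul, h0, zero_mul, det_smul, det_one, mul_one] at h2
    exact pow_ne_zero _ hnK h2.symm
  have h3 : (Matrix.of fun x y : ZMod n => f (x - y) + 1) * W =
      W * diagonal (fun k => lam ψ f k + if k = 0 then (n : K) else 0) := by
    ext a k
    rw [Matrix.mul_diagonal, Matrix.mul_apply]
    simp only [Matrix.of_apply, hW, add_mul, one_mul, Finset.sum_add_distrib]
    have e1 : ∑ b : ZMod n, f (a - b) * ψ (-(k * b)) = ψ (-(k * a)) * lam ψ f k := by
      unfold lam
      rw [Finset.mul_sum]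
      apply Fintype.sum_equiv (Equiv.subLeft a)
      intro b
      rw [Equiv.subLeft_apply]
      have : -(k * b) = -(k * a) + k * (a - b) := by ring
      rw [this, AddChar.map_add_eq_mul]; ring
    have e2 : ∑ b : ZMod n, ψ (-(k * b)) = ψ (-(k * a)) * if k = 0 then (n : K) else 0 := by
      have e3 : ∀ b, ψ (-(k * b)) = ψ ((-k) * b) := by intro b; congr 1; ring
      rw [Finset.sum_congr rfl (fun b _ => e3 b), sum_psi ψ hψ]
      by_cases hk : k = 0
      · subst hk; simp
      · rw [if_neg (neg_ne_zero.mpr hk), if_neg hk]; simp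
    rw [e1, e2]; ring
  have h4 := congrArg Matrix.det h3
  rw [det_mul, det_mul, det_diagonal, mul_comm] at h4
  exact mul_left_cancel₀ hdW h4

lemma lam_shift (f : ZMod n → K) (s k : ZMod n) :
    lam ψ (fun x => f (x - s)) k = ψ (k * s) * lam ψ f k := by
  unfold lam
  rw [Finset.mul_sum]
  apply Fintype.sum_equiv (Equiv.subRight s)
  intro x
  rw [Equiv.subRight_apply]
  have : k * x = k * s + k * (x - s) := by ring
  conv_lhs => rw [this]
  rw [AddChar.map_add_eq_mul]; ring

end field

/-- the circulant determinant as an integer identity -/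
theorem det_int (r : ℕ) (hn : n = 2 * r) (hr : 0 < r) (f : ZMod n → ℤ) (hf : ∀ x, f (1 - x) = - f x)
    (s : ZMod n) :
    (Matrix.of fun x y : ZMod n => f (x - y - s) + 1).det =
      2 * (∑ x : ZMod n, f (x - s) * (-1) ^ x.val) * (Q1 n r f).det ^ 2 := by
  set ψ : AddChar (ZMod n) ℂ := ZMod.stdAddChar with hψd
  have hψ : ψ.IsPrimitive := ZMod.isPrimitive_stdAddChar n
  obtain ⟨g, hg⟩ := IsAlgClosed.exists_pow_nat_eq (ψ 1) (n := 2) (by norm_num)
  have hg0 : g ≠ 0 := by
    intro h
    rw [h] at hg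
    apply psi_ne ψ 1
    rw [← hg]; norm_num
  have hnK : (n : ℂ) ≠ 0 := by
    have : n ≠ 0 := NeZero.ne n
    exact_mod_cast this
  have hrK : (r : ℂ) ≠ 0 := by
    have : r ≠ 0 := by omega
    exact_mod_cast this
  have hnr : (n : ℂ) = 2 * r := by
    have := congrArg (Nat.cast : ℕ → ℂ) hn
    push_cast at this; exact this
  set fC : ZMod n → ℂ := fun x => (f x : ℂ) with hfC
  have hfC1 : ∀ x, fC (1 - x) = - fC x := by intro x; rw [hfC]; simp only; rw [hf]; push_cast; rfl
  have hkey := key r hn ψ hψ g hg hg0 hr (two_ne_zero) hnK fC hfC1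
  -- the determinant
  have hdet := det_circ ψ hψ hnK (fun x => fC (x - s))
  have hsum0 : ∑ x : ZMod n, fC x = 0 := by
    have h1 : ∑ x : ZMod n, fC x = - ∑ x : ZMod n, fC x := by
      conv_lhs => rw [← Equiv.sum_comp (Equiv.subLeft (1 : ZMod n))]
      rw [← Finset.sum_neg_distrib]
      apply Finset.sum_congr rfl
      intro x _
      rw [Equiv.subLeft_apply, hfC1]
    have h2 : 2 * ∑ x : ZMod n, fC x = 0 := by linear_combination h1
    rcases mul_eq_zero.mp h2 with h | h
    · norm_num at h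
    · exact h
  have hlam0 : lam ψ (fun x => fC (x - s)) 0 = 0 := by
    rw [lam_shift]
    unfold lam
    simp [hsum0]
  have hψr : ψ (r : ZMod n) = -1 := by
    have h1 : ψ (r : ZMod n) * ψ (r : ZMod n) = 1 := by
      rw [← AddChar.map_add_eq_mul]
      have : (r : ZMod n) + (r : ZMod n) = 0 := by
        have : ((n : ℕ) : ZMod n) = 0 := ZMod.natCast_self n
        have h2 : ((n : ℕ) : ZMod n) = 2 * (r : ZMod n) := by
          have := congrArg (Nat.cast : ℕ → ZMod n) hn
          push_cast at this; simpa using this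
        rw [this] at h2
        linear_combination -h2
      rw [this]; simp
    have h2 : ψ (r : ZMod n) ≠ 1 := by
      intro h
      have h3 := (hψ.zmod_char_eq_one_iff n (r : ZMod n)).mp h
      rw [ZMod.natCast_eq_zero_iff] at h3
      have := Nat.le_of_dvd hr h3
      omega
    rcases mul_self_eq_one_iff.mp h1 with h | h
    · exact absurd h h2
    · exact h
  have hlamr : lam ψ (fun x => fC (x - s)) (r : ZMod n) =
      ((∑ x : ZMod n, f (x - s) * (-1) ^ x.val : ℤ) : ℂ) := by
    unfold lam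
    push_cast
    apply Finset.sum_congr rfl
    intro x _
    have : ψ ((r : ZMod n) * x) = (-1) ^ x.val := by
      rw [← hψr, ← AddChar.map_nsmul_eq_pow, nsmul_eq_mul, ZMod.natCast_zmod_val, mul_comm]
    rw [this]
  set L' : ZMod n → ℂ := fun k => lam ψ (fun x => fC (x - s)) k + if k = 0 then (n : ℂ) else 0 with hL'
  have hprod : ∏ k : ZMod n, L' k = n * lam ψ (fun x => fC (x - s)) (r : ZMod n) *
      ((-1) ^ (r - 1) * ∏ k ∈ Ico 1 r, ((g ^ k)⁻¹ * lam ψ fC (k : ZMod n)) ^ 2) := by
    rw [fold1_prod r hn, Finset.prod_mul_distrib]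
    rw [Fin.prod_univ_eq_prod_range (fun j => L' ((j : ZMod n) + 1)),
      Fin.prod_univ_eq_prod_range (fun j => L' (-(j : ZMod n)))]
    obtain ⟨t, ht⟩ : ∃ t, r = t + 1 := ⟨r - 1, by omega⟩
    have e1 : ∏ j ∈ range r, L' ((j : ZMod n) + 1) = (∏ k ∈ Ico 1 r, L' (k : ZMod n)) * L' (r : ZMod n) := by
      rw [Finset.prod_Ico_eq_prod_range, ht, Finset.prod_range_succ, Nat.add_sub_cancel]
      congr 1
      · apply Finset.prod_congr rfl
        intro i _
        congr 1; push_cast; ring
      · congr 1; push_cast; rfl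
    have e2 : ∏ j ∈ range r, L' (-(j : ZMod n)) = L' 0 * ∏ k ∈ Ico 1 r, L' (-(k : ZMod n)) := by
      rw [Finset.prod_Ico_eq_prod_range, ht, Finset.prod_range_succ', Nat.add_sub_cancel, mul_comm]
      congr 1
      · simp
      · apply Finset.prod_congr rfl
        intro i _
        congr 1; push_cast; ring
    rw [e1, e2]
    have hL0 : L' 0 = n := by rw [hL']; simp only; rw [hlam0]; simp
    have hLr : L' (r : ZMod n) = lam ψ (fun x => fC (x - s)) (r : ZMod n) := by
      rw [hL']; simp only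
      rw [if_neg, add_zero]
      intro h3
      rw [ZMod.natCast_eq_zero_iff] at h3
      have := Nat.le_of_dvd hr h3
      omega
    have e3 : ∀ k ∈ Ico 1 r, L' (k : ZMod n) * L' (-(k : ZMod n)) =
        (-1) * ((g ^ k)⁻¹ * lam ψ fC (k : ZMod n)) ^ 2 := by
      intro k hk
      rw [Finset.mem_Ico] at hk
      have hk0 : (k : ZMod n) ≠ 0 := by
        intro h3
        rw [ZMod.natCast_eq_zero_iff] at h3
        have := Nat.le_of_dvd (by omega) h3
        omega
      rw [hL']; simp only
      rw [if_neg hk0, if_neg (neg_ne_zero.mpr hk0), add_zero, add_zero, lam_shift, lam_shift,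
        lam_neg ψ fC hfC1, neg_mul, psi_neg, psi_nat ψ g hg k, two_mul, pow_add]
      have := psi_ne ψ ((k : ZMod n) * s)
      have hgk : g ^ k ≠ 0 := pow_ne_zero _ hg0
      field_simp
    have e4 : (∏ k ∈ Ico 1 r, L' (k : ZMod n)) * ∏ k ∈ Ico 1 r, L' (-(k : ZMod n)) =
        (-1) ^ (r - 1) * ∏ k ∈ Ico 1 r, ((g ^ k)⁻¹ * lam ψ fC (k : ZMod n)) ^ 2 := by
      rw [← Finset.prod_mul_distrib, Finset.prod_congr rfl e3, Finset.prod_mul_distrib,
        Finset.prod_const, Nat.card_Ico]
    rw [hL0, hLr, ← e4]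
    ring
  rw [hprod, hlamr] at hdet
  -- cast of determinants
  have hQ : (((Q1 n r f).det : ℤ) : ℂ) = (Q1 n r fC).det := by
    have h2 := (Int.castRingHom ℂ).map_det (Q1 n r f)
    have h3 : (Q1 n r f).map (Int.castRingHom ℂ) = Q1 n r fC := by
      ext a b
      simp only [Q1, Matrix.map_apply, Matrix.of_apply, hfC]
      split_ifs <;> simp
    rw [RingHom.mapMatrix_apply, h3] at h2
    exact h2
  have hM : (((Matrix.of fun x y : ZMod n => f (x - y - s) + 1).det : ℤ) : ℂ) =
      (Matrix.of fun x y : ZMod n => fC (x - y - s) + 1).det := by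
    have h2 := (Int.castRingHom ℂ).map_det (Matrix.of fun x y : ZMod n => f (x - y - s) + 1)
    have h3 : (Matrix.of fun x y : ZMod n => f (x - y - s) + 1).map (Int.castRingHom ℂ) =
        Matrix.of fun x y : ZMod n => fC (x - y - s) + 1 := by
      ext a b
      simp [hfC]
    rw [RingHom.mapMatrix_apply, h3] at h2
    exact h2
  have hfin : (r : ℂ) * (((Matrix.of fun x y : ZMod n => f (x - y - s) + 1).det : ℤ) : ℂ) =
      r * (2 * ((∑ x : ZMod n, f (x - s) * (-1) ^ x.val : ℤ) : ℂ) * (((Q1 n r f).det : ℤ) : ℂ) ^ 2) := by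
    rw [hM, hdet, hQ, hnr]
    have h1 : ((-1 : ℂ) ^ (r - 1)) * (-1) ^ (r - 1) = 1 := by rw [← mul_pow]; simp
    linear_combination (-(2 * (r : ℂ) * ((∑ x : ZMod n, f (x - s) * (-1) ^ x.val : ℤ) : ℂ) * (-1) ^ (r - 1))) * hkey
      + (2 * (r : ℂ) * ((∑ x : ZMod n, f (x - s) * (-1) ^ x.val : ℤ) : ℂ) * (Q1 n r fC).det ^ 2) * h1
  have := mul_left_cancel₀ hrK hfin
  exact_mod_cast this

end Pool.Agent.R945.JD
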