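import Mathlib
import Pool.Agent.R945.JD.Circ2
import Pool.Agent.R945.CM.Hasse
import Pool.Agent.R945.CD.Circ

set_option autoImplicit false
set_option linter.unusedSectionVars false

namespace Pool.Agent.R945.JD

open Finset Matrix Nat Pool.Agent.R945.LD Pool.Agent.R945.CM

variable {p : ℕ} [Fact p.Prime]

lemma cast_ne {k : ℕ} (h0 : 0 < k) (hk : k < p) : (k : ZMod p) ≠ 0 := by
  intro h
  rw [ZMod.natCast_eq_zero_iff] at h
  have := Nat.le_of_dvd h0 h
  omega

lemma fact_ne {k : ℕ} (hk : k < p) : ((k ! : ℕ) : ZMod p) ≠ 0 := by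
  intro h
  rw [ZMod.natCast_eq_zero_iff, (Fact.out : p.Prime).dvd_factorial] at h
  omega

/-- character of the factorial -/
noncomputable def c (p : ℕ) [Fact p.Prime] (k : ℕ) : ℤ := q p ((k ! : ℕ) : ZMod p)

lemma c_zero : c p 0 = 1 := by simp [c]

lemma c_succ (k : ℕ) : c p (k + 1) = q p ((k : ZMod p) + 1) * c p k := by
  unfold c
  rw [← q_mul, Nat.factorial_succ]
  push_cast
  rfl

lemma c_sq {k : ℕ} (hk : k < p) : c p k * c p k = 1 := q_sq (fact_ne hk)

lemma c_add (s j : ℕ) : c p (s + j) = c p s * ∏ k ∈ range j, q p ((s : ZMod p) + k + 1) := by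
  induction j with
  | zero => simp
  | succ j ih =>
    rw [← add_assoc, c_succ, ih, Finset.prod_range_succ]
    push_cast
    ring

lemma prod_c (s : ℕ) (hs : 2 * s < p) : ∏ k ∈ range s, (c p k * c p (2 * s - k)) = q p 2 ^ s := by
  induction s with
  | zero => simp
  | succ s ih =>
    have ih := ih (by omega)
    rw [Finset.prod_range_succ']
    have e1 : ∏ k ∈ range s, (c p (k + 1) * c p (2 * (s + 1) - (k + 1))) =
        (∏ k ∈ range s, q p (((0 : ℕ) : ZMod p) + k + 1)) * (∏ k ∈ range s, q p (((s + 1 : ℕ) : ZMod p) + k + 1)) *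
          ∏ k ∈ range s, (c p k * c p (2 * s - k)) := by
      rw [← Finset.prod_range_reflect (fun k => q p (((s + 1 : ℕ) : ZMod p) + k + 1)), ← Finset.prod_mul_distrib,
        ← Finset.prod_mul_distrib]
      apply Finset.prod_congr rfl
      intro k hk
      rw [Finset.mem_range] at hk
      have e2 : 2 * (s + 1) - (k + 1) = (2 * s - k) + 1 := by omega
      rw [e2, c_succ, c_succ]
      have e3 : ((s + 1 : ℕ) : ZMod p) + ((s - 1 - k : ℕ) : ZMod p) + 1 = ((2 * s - k : ℕ) : ZMod p) + 1 := by
        have : (s + 1) + (s - 1 - k) + 1 = (2 * s - k) + 1 := by omega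
        exact_mod_cast congrArg (Nat.cast : ℕ → ZMod p) this
      rw [e3]
      have e4 : ((0 : ℕ) : ZMod p) + (k : ZMod p) + 1 = (k : ZMod p) + 1 := by push_cast; ring
      rw [e4]
      ring
    have h1 := c_add (p := p) 0 s
    have h2 := c_add (p := p) (s + 1) s
    have h3 : 2 * (s + 1) - 0 = (s + 1 + s) + 1 := by omega
    rw [e1, ih, h3, c_succ (s + 1 + s), h2, c_zero]
    rw [c_zero, zero_add, one_mul] at h1
    rw [← h1]
    set P := ∏ k ∈ range s, q p (((s + 1 : ℕ) : ZMod p) + k + 1) with hP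
    have h4 : P * P = 1 := by
      rw [hP, ← Finset.prod_mul_distrib]
      apply Finset.prod_eq_one
      intro k hk
      rw [Finset.mem_range] at hk
      apply q_sq
      have : (((s + 1 + k + 1 : ℕ)) : ZMod p) ≠ 0 := cast_ne (by omega) (by omega)
      push_cast at this ⊢
      exact this
    have h5 : q p (((s + 1 + s : ℕ) : ZMod p) + 1) = q p 2 * q p ((s : ZMod p) + 1) := by
      rw [← q_mul]
      congr 1
      push_cast
      ring
    have h6 := c_sq (p := p) (k := s + 1) (by omega)
    rw [c_succ] at h6 ⊢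
    rw [h5]
    linear_combination (q p 2 * q p 2 ^ s * q p ((s : ZMod p) + 1) ^ 2 * c p s ^ 2) * h4 + (q p 2 * q p 2 ^ s) * h6

lemma int_of_zmod (hp2 : 2 < p) {a b : ℤ} (ha : a = 1 ∨ a = -1) (hb : b = 1 ∨ b = -1)
    (h : (a : ZMod p) = (b : ZMod p)) : a = b := by
  have h2 : (2 : ZMod p) ≠ 0 := two_ne (by omega)
  rcases ha with rfl | rfl <;> rcases hb with rfl | rfl
  · rfl
  · exfalso; apply h2; push_cast at h; linear_combination h
  · exfalso; apply h2; push_cast at h; linear_combination -h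
  · rfl

lemma q_pm {a : ZMod p} (ha : a ≠ 0) : q p a = 1 ∨ q p a = -1 := by
  have := q_sq ha
  rcases mul_self_eq_one_iff.mp this with h | h
  · left; exact h
  · right; exact h

variable (r : ℕ) (hp : p = 4 * r + 1) (hr : 0 < r)

include hp hr in
lemma q_of_sq_neg {u : ZMod p} (hu : u ^ 2 = -1) : q p u = (-1) ^ r := by
  have hu0 : u ≠ 0 := by
    rintro rfl
    have : (1 : ZMod p) = 0 := by linear_combination hu
    exact one_ne_zero this
  apply int_of_zmod (p := p) (by omega) (q_pm hu0) (neg_one_pow_eq_or ℤ r)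
  rw [q_pow (2 * r) (by omega), pow_mul, hu]
  push_cast
  rfl

include hp hr in
lemma q_two : q p 2 = (-1) ^ r := by
  show quadraticChar (ZMod p) 2 = (-1) ^ r
  rw [quadraticChar_two (ringChar_ne (by omega)), ZMod.card, ZMod.χ₈_nat_eq_if_mod_eight]
  rcases Nat.even_or_odd r with h | h
  · obtain ⟨s, hs⟩ := h
    rw [if_neg (by omega), if_pos (by omega), Even.neg_one_pow ⟨s, hs⟩]
  · obtain ⟨s, hs⟩ := h
    rw [if_neg (by omega), if_neg (by omega), Odd.neg_one_pow ⟨s, hs⟩]

include hp in
lemma fact_sq : (((2 * r)! : ℕ) : ZMod p) ^ 2 = -1 := by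
  have h := ZMod.wilsons_lemma p
  rw [← h]
  have e : p - 1 = 2 * r + 2 * r := by omega
  rw [e, ← Finset.prod_range_add_one_eq_factorial, ← Finset.prod_range_add_one_eq_factorial,
    Finset.prod_range_add, sq]
  push_cast
  congr 1
  conv_rhs => rw [← Finset.prod_range_reflect]
  have e2 : ∀ k ∈ range (2 * r), (2 * (r : ZMod p) + ((2 * r - 1 - k : ℕ) : ZMod p) + 1) = (-1) * ((k : ZMod p) + 1) := by
    intro k hk
    rw [Finset.mem_range] at hk
    have e3 : 2 * r + (2 * r - 1 - k) + 1 + (k + 1) = p := by omega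
    have e4 := congrArg (Nat.cast : ℕ → ZMod p) e3
    rw [ZMod.natCast_self] at e4
    push_cast at e4
    linear_combination e4
  rw [Finset.prod_congr rfl e2, Finset.prod_mul_distrib, Finset.prod_const, Finset.card_range, pow_mul]
  simp

include hp hr in
/-- the product of characters of binomial coefficients -/
lemma prod_choose : ∏ k ∈ range r, q p (((2 * r).choose k : ℕ) : ZMod p) = 1 := by
  have h1 : ∀ k ∈ range r, q p (((2 * r).choose k : ℕ) : ZMod p) = c p (2 * r) * (c p k * c p (2 * r - k)) := by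
    intro k hk
    rw [Finset.mem_range] at hk
    have h := Nat.choose_mul_factorial_mul_factorial (n := 2 * r) (k := k) (by omega)
    have h2 : c p (2 * r) = q p (((2 * r).choose k : ℕ) : ZMod p) * c p k * c p (2 * r - k) := by
      unfold c
      rw [← q_mul, ← q_mul, ← h]
      push_cast
      rfl
    rw [h2]
    have h3 := c_sq (p := p) (k := k) (by omega)
    have h4 := c_sq (p := p) (k := 2 * r - k) (by omega)
    linear_combination (-(q p (((2 * r).choose k : ℕ) : ZMod p) * c p k * c p k)) * h4 - q p (((2 * r).choose k : ℕ) : ZMod p) * h3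
  rw [Finset.prod_congr rfl h1, Finset.prod_mul_distrib, prod_c r (by omega), Finset.prod_const, Finset.card_range,
    ← mul_pow]
  have h2 : c p (2 * r) = (-1) ^ r := q_of_sq_neg r hp hr (fact_sq r hp)
  rw [h2, q_two r hp hr, ← mul_pow]
  simp

end Pool.Agent.R945.JD
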