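import Mathlib
import Pool.Agent.R945.JD.Chars

set_option autoImplicit false
set_option linter.unusedSectionVars false

namespace Pool.Agent.R945.JD

open Finset Matrix Pool.Agent.R945.LD Pool.Agent.R945.CM

variable {p : ℕ} [Fact p.Prime]

lemma exists_g (r : ℕ) (hp : p = 4 * r + 1) : ∃ g : ZMod p, IsPrimitiveRoot g (4 * r) := by
  obtain ⟨g, hg⟩ := IsCyclic.exists_generator (α := (ZMod p)ˣ)
  have h1 := orderOf_eq_card_of_forall_mem_zpowers hg
  rw [Nat.card_eq_fintype_card, ZMod.card_units, show p - 1 = 4 * r by omega] at h1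
  refine ⟨(g : ZMod p), ?_⟩
  rw [IsPrimitiveRoot.coe_units_iff, ← h1]
  exact IsPrimitiveRoot.orderOf g

lemma z_prim (r : ℕ) (hr : 0 < r) {g : ZMod p} (hg : IsPrimitiveRoot g (4 * r)) :
    IsPrimitiveRoot (g ^ 2) (2 * r) := hg.pow (by omega) (by omega)

/-- the additive character -/
noncomputable def ps (r : ℕ) (hr : 0 < r) {g : ZMod p} (hg : IsPrimitiveRoot g (4 * r)) :
    AddChar (ZMod (2 * r)) (ZMod p) :=
  haveI : NeZero (2 * r) := ⟨by omega⟩
  AddChar.zmodChar (2 * r) (z_prim r hr hg).pow_eq_one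

/-- the basic sign function -/
noncomputable def f1 (r : ℕ) (hr : 0 < r) {g : ZMod p} (hg : IsPrimitiveRoot g (4 * r)) (x : ZMod (2 * r)) : ℤ :=
  q p (ps r hr hg x + g)

variable (r : ℕ) (hp : p = 4 * r + 1) (hr : 0 < r) {g : ZMod p} (hg : IsPrimitiveRoot g (4 * r))

include hr hg in
lemma g_ne : g ≠ 0 := hg.ne_zero (by omega)

include hr hg in
lemma g_half : g ^ (2 * r) = -1 := by
  have h1 : (g ^ (2 * r)) * (g ^ (2 * r)) = 1 := by
    rw [← pow_add, show 2 * r + 2 * r = 4 * r by omega]; exact hg.pow_eq_one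
  rcases mul_self_eq_one_iff.mp h1 with h | h
  · exfalso
    have := hg.dvd_of_pow_eq_one (2 * r) h
    have := Nat.le_of_dvd (by omega) this
    omega
  · exact h

include hp hr hg in
lemma q_g : q p g = -1 := by
  apply int_of_zmod (p := p) (by omega) (q_pm (g_ne r hr hg)) (Or.inr rfl)
  rw [q_pow (2 * r) (by omega), g_half r hr hg]
  push_cast
  rfl

lemma ps_apply (x : ZMod (2 * r)) : ps r hr hg x = g ^ (2 * x.val) := by
  haveI : NeZero (2 * r) := ⟨by omega⟩
  unfold ps
  rw [AddChar.zmodChar_apply, pow_mul]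

lemma ps_prim : (ps r hr hg).IsPrimitive := by
  haveI : NeZero (2 * r) := ⟨by omega⟩
  exact AddChar.zmodChar_primitive_of_primitive_root (2 * r) (z_prim r hr hg)

lemma ps_one : g ^ 2 = ps r hr hg 1 := by
  rw [ps_apply]
  congr 1
  have : (1 : ZMod (2 * r)).val = 1 := by
    have h := ZMod.val_natCast_of_lt (n := 2 * r) (a := 1) (by omega)
    simpa using h
  omega

lemma q_ps (x : ZMod (2 * r)) : q p (ps r hr hg x) = 1 := by
  rw [ps_apply, two_mul, pow_add, q_mul]
  exact q_sq (pow_ne_zero _ (g_ne r hr hg))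

include hp hr hg in
/-- nonzero elements are powers of `g` -/
lemma exists_pow {y : ZMod p} (hy : y ≠ 0) : ∃ x : ZMod (2 * r), ps r hr hg x = y ^ 2 ∧ q p y = (-1) ^ x.val := by
  haveI : NeZero (2 * r) := ⟨by omega⟩
  haveI : NeZero (4 * r) := ⟨by omega⟩
  have h1 : y ^ (4 * r) = 1 := by
    have := ZMod.pow_card_sub_one_eq_one hy
    rwa [show p - 1 = 4 * r by omega] at this
  obtain ⟨i, _, hi⟩ := hg.eq_pow_of_pow_eq_one h1
  refine ⟨(i : ZMod (2 * r)), ?_, ?_⟩
  · rw [psi_nat (ps r hr hg) g (ps_one r hr hg), ← hi, ← pow_mul, mul_comm]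
  · rw [← hi]
    have h2 : q p (g ^ i) = (-1) ^ i := by
      have : q p (g ^ i) = (q p g) ^ i := map_pow (quadraticChar (ZMod p)) g i
      rw [this, q_g r hp hr hg]
    rw [h2, ZMod.val_natCast]
    conv_lhs => rw [← Nat.div_add_mod i (2 * r)]
    rw [pow_add, pow_mul, pow_mul]
    simp

include hp in
lemma f1_anti (x : ZMod (2 * r)) : f1 r hr hg (1 - x) = - f1 r hr hg x := by
  haveI : NeZero (2 * r) := ⟨by omega⟩
  unfold f1
  have h0 := psi_ne (ps r hr hg) x
  have e : ps r hr hg (1 - x) + g = g * ((ps r hr hg x)⁻¹ * (ps r hr hg x + g)) := by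
    rw [sub_eq_add_neg, AddChar.map_add_eq_mul, psi_neg, ← ps_one]
    field_simp
    ring
  rw [e, q_mul, q_mul, q_g r hp hr hg, q_inv, q_ps]
  ring

include hp in
lemma f1_pm (x : ZMod (2 * r)) : f1 r hr hg x = 1 ∨ f1 r hr hg x = -1 := by
  apply q_pm
  intro h
  have h1 : ps r hr hg x = (-1) * g := by linear_combination h
  have h2 := q_ps r hr hg x
  rw [h1, q_mul, q_g r hp hr hg, q_neg_one_of_one (by omega)] at h2
  norm_num at h2

include hp in
lemma lam_f1 (k : ℕ) (hk0 : 0 < k) (hk : k < r) :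
    haveI : NeZero (2 * r) := ⟨by omega⟩
    lam (ps r hr hg) (fun x => ((f1 r hr hg x : ℤ) : ZMod p)) (k : ZMod (2 * r)) =
      (2 * r : ℕ) * (((2 * r).choose k : ℕ) : ZMod p) * g ^ k := by
  haveI : NeZero (2 * r) := ⟨by omega⟩
  unfold lam
  set ψ := ps r hr hg with hψ
  have h1 : ∀ x : ZMod (2 * r), ((f1 r hr hg x : ℤ) : ZMod p) * ψ ((k : ZMod (2 * r)) * x) =
      ∑ j ∈ range (2 * r + 1), (g ^ (2 * r - j) * (((2 * r).choose j : ℕ) : ZMod p)) *
        ψ (((k : ZMod (2 * r)) + (j : ZMod (2 * r))) * x) := by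
    intro x
    unfold f1
    rw [q_pow (2 * r) (by omega), add_pow, Finset.sum_mul]
    apply Finset.sum_congr rfl
    intro j _
    have e : ((k : ZMod (2 * r)) + (j : ZMod (2 * r))) * x = (k : ZMod (2 * r)) * x + j • x := by
      rw [nsmul_eq_mul]; ring
    rw [e, AddChar.map_add_eq_mul, AddChar.map_nsmul_eq_pow, ← hψ]
    ring
  rw [Finset.sum_congr rfl (fun x _ => h1 x), Finset.sum_comm]
  simp only [← Finset.mul_sum]
  rw [Finset.sum_eq_single (2 * r - k)]
  · rw [sum_psi ψ (ps_prim r hr hg), if_pos]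
    · rw [Nat.choose_symm (by omega), show 2 * r - (2 * r - k) = k by omega]
      ring
    · rw [← Nat.cast_add, show k + (2 * r - k) = 2 * r by omega]
      simp
  · intro j hj hne
    rw [Finset.mem_range] at hj
    rw [sum_psi ψ (ps_prim r hr hg), if_neg, mul_zero]
    intro h
    rw [← Nat.cast_add, ZMod.natCast_eq_zero_iff] at h
    obtain ⟨t, ht⟩ := h
    have : t < 2 := by
      by_contra h2
      have : 2 * r * 2 ≤ 2 * r * t := Nat.mul_le_mul_left _ (by omega)
      omega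
    interval_cases t
    · omega
    · omega
  · intro h
    rw [Finset.mem_range] at h
    omega

end Pool.Agent.R945.JD
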