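import Mathlib
import Pool.Agent.R945.JD.Main

set_option autoImplicit false
set_option linter.unusedSectionVars false

namespace Pool.Agent.R945.JD

open Finset Matrix Pool.Agent.R945.LD Pool.Agent.R945.CM

/-- the halved matrix -/
def Qh (n r : ℕ) (f : ZMod n → ℤ) : Matrix (Fin r) (Fin r) ℤ :=
  Matrix.of fun a b => if b.val = 0 then 1 else
    (f (((a.val : ZMod n) + 1) - (b.val : ZMod n)) - f (((a.val : ZMod n) + 1) + (b.val : ZMod n))) / 2

/-- the integer `t` up to sign -/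
def tau (n r : ℕ) (hr : 0 < r) (f : ZMod n → ℤ) : ℤ :=
  ((Qh n r f).updateRow ⟨0, hr⟩ (Pi.single ⟨0, hr⟩ 1)).det

lemma sum_f_zero {n : ℕ} [NeZero n] (f : ZMod n → ℤ) (hf : ∀ x, f (1 - x) = - f x) : ∑ x : ZMod n, f x = 0 := by
  have h1 : ∑ x : ZMod n, f x = - ∑ x : ZMod n, f x := by
    conv_lhs => rw [← Equiv.sum_comp (Equiv.subLeft (1 : ZMod n))]
    rw [← Finset.sum_neg_distrib]
    apply Finset.sum_congr rfl
    intro x _
    rw [Equiv.subLeft_apply, hf]
  omega

lemma Q1_tau (n r : ℕ) [NeZero n] (hn : n = 2 * r) (hr : 0 < r) (f : ZMod n → ℤ) (hf : ∀ x, f (1 - x) = - f x)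
    (hpm : ∀ x, f x = 1 ∨ f x = -1) : (Q1 n r f).det = 2 ^ (r - 1) * r * tau n r hr f := by
  have hdiv : ∀ x y, 2 * ((f x - f y) / 2) = f x - f y := by
    intro x y
    rcases hpm x with h | h <;> rcases hpm y with h' | h' <;> rw [h, h'] <;> norm_num
  have h1 : Q1 n r f = Matrix.of fun a b : Fin r => (if b.val = 0 then (1 : ℤ) else 2) * Qh n r f a b := by
    ext a b
    simp only [Q1, Qh, Matrix.of_apply]
    split_ifs with hb
    · rfl
    · rw [hdiv]
  have h2 : ∏ b : Fin r, (if b.val = 0 then (1 : ℤ) else 2) = 2 ^ (r - 1) := by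
    rw [Fin.prod_univ_eq_prod_range (fun k => if k = 0 then (1 : ℤ) else 2)]
    obtain ⟨s, rfl⟩ : ∃ s, r = s + 1 := ⟨r - 1, by omega⟩
    rw [Finset.prod_range_succ']
    simp
  rw [h1, det_mul_row, h2]
  have hsum := sum_f_zero f hf
  have h3 := det_updateRow_sum (Qh n r f) ⟨0, hr⟩ (fun _ => 1)
  have h4 : (∑ k, (1 : ℤ) • (Qh n r f) k) = (r : ℤ) • (Pi.single ⟨0, hr⟩ 1 : Fin r → ℤ) := by
    funext b
    have h5 : (∑ k, (1 : ℤ) • (Qh n r f) k) b = ∑ k, Qh n r f k b := by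
      rw [Finset.sum_apply b Finset.univ (fun k => ((1 : ℤ) • (Qh n r f) k : Fin r → ℤ))]
      simp
    rw [h5]
    by_cases hb : b.val = 0
    · have hb' : b = ⟨0, hr⟩ := Fin.ext hb
      rw [hb']
      simp [Qh]
    · have hb' : b ≠ ⟨0, hr⟩ := fun h => hb (by rw [h])
      rw [Pi.smul_apply, Pi.single_eq_of_ne hb', smul_zero]
      have h6 : 2 * ∑ k, Qh n r f k b = 0 := by
        rw [Finset.mul_sum]
        have h7 := fold1 r hn (fun x => f (x - (b.val : ZMod n)))
        have h8 : ∑ x : ZMod n, f (x - (b.val : ZMod n)) = 0 := by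
          rw [← hsum]
          exact Fintype.sum_equiv (Equiv.subRight (b.val : ZMod n)) _ _ (fun _ => rfl)
        rw [h8] at h7
        rw [h7]
        apply Finset.sum_congr rfl
        intro a _
        simp only [Qh, Matrix.of_apply, if_neg hb]
        rw [hdiv]
        have h9 : f (-((a.val : ℕ) : ZMod n) - (b.val : ZMod n)) = - f (((a.val : ZMod n) + 1) + (b.val : ZMod n)) := by
          rw [← hf]; congr 1; ring
        rw [h9]; ring
      omega
  rw [h4, det_updateRow_smul, one_smul] at h3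
  rw [← h3]
  unfold tau
  ring

section residue

variable {p : ℕ} [Fact p.Prime]
variable (r : ℕ) (hp : p = 4 * r + 1) (hr : 0 < r) {g : ZMod p} (hg : IsPrimitiveRoot g (4 * r))

include hp hr in
theorem q_tau : q p ((tau (2 * r) r hr (f1 r hr hg) : ℤ) : ZMod p) = 1 := by
  have : NeZero (2 * r) := ⟨by omega⟩
  set τ := tau (2 * r) r hr (f1 r hr hg) with hτ
  have hQ := Q1_tau (2 * r) r rfl hr (f1 r hr hg) (f1_anti r hp hr hg) (f1_pm r hp hr hg)
  rw [← hτ] at hQ
  have hrp : (4 : ZMod p) * (r : ZMod p) = -1 := by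
    have := congrArg (Nat.cast : ℕ → ZMod p) hp
    rw [ZMod.natCast_self] at this
    push_cast at this
    linear_combination -this
  have h2 : (2 : ZMod p) ≠ 0 := two_ne (by omega)
  have hr0 : (r : ZMod p) ≠ 0 := cast_ne hr (by omega)
  have hn0 : ((2 * r : ℕ) : ZMod p) ≠ 0 := cast_ne (by omega) (by omega)
  have hkey := key (n := 2 * r) r rfl (ps r hr hg) (ps_prim r hr hg) g (ps_one r hr hg) (g_ne r hr hg) hr h2 hn0
    (fun x => ((f1 r hr hg x : ℤ) : ZMod p)) (by intro x; rw [f1_anti r hp hr hg]; push_cast; rfl)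
  have hdet : (Q1 (2 * r) r (fun x => ((f1 r hr hg x : ℤ) : ZMod p))).det = 2 ^ (r - 1) * r * (τ : ZMod p) := by
    have h3 := (Int.castRingHom (ZMod p)).map_det (Q1 (2 * r) r (f1 r hr hg))
    have h4 : (Q1 (2 * r) r (f1 r hr hg)).map (Int.castRingHom (ZMod p)) =
        Q1 (2 * r) r (fun x => ((f1 r hr hg x : ℤ) : ZMod p)) := by
      ext a b
      simp only [Q1, Matrix.map_apply, Matrix.of_apply]
      split_ifs <;> simp
    rw [RingHom.mapMatrix_apply, h4, hQ] at h3
    rw [← h3]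
    simp
  have hlam : ∏ k ∈ Ico 1 r, ((g ^ k)⁻¹ * lam (ps r hr hg) (fun x => ((f1 r hr hg x : ℤ) : ZMod p)) (k : ZMod (2 * r))) ^ 2 =
      (∏ k ∈ Ico 1 r, (((2 * r : ℕ) : ZMod p) * (((2 * r).choose k : ℕ) : ZMod p))) ^ 2 := by
    rw [← Finset.prod_pow]
    apply Finset.prod_congr rfl
    intro k hk
    rw [Finset.mem_Ico] at hk
    rw [lam_f1 r hp hr hg k (by omega) (by omega)]
    have : g ^ k ≠ 0 := pow_ne_zero _ (g_ne r hr hg)
    field_simp
  rw [hlam, hdet] at hkey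
  set X : ZMod p := 2 ^ (r - 1) * r * (τ : ZMod p) with hX
  set Y : ZMod p := ∏ k ∈ Ico 1 r, (((2 * r : ℕ) : ZMod p) * (((2 * r).choose k : ℕ) : ZMod p)) with hY
  -- characters
  have hs : ((-1 : ℤ) ^ r) ^ (r - 1) = 1 := by
    rw [← pow_mul]
    apply Even.neg_one_pow
    have := Nat.even_mul_pred_self r
    exact this
  have hq2 := q_two r hp hr
  have hqr : q p (r : ZMod p) = 1 := by
    have h5 : q p (4 * (r : ZMod p)) = 1 := by rw [hrp]; exact q_neg_one_of_one (by omega)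
    have e : (4 : ZMod p) * r = 2 * (2 * r) := by ring
    rw [e, q_mul, q_mul, ← mul_assoc, q_sq h2, one_mul] at h5
    exact h5
  have hqn : q p ((2 * r : ℕ) : ZMod p) = (-1) ^ r := by
    push_cast
    rw [q_mul, hqr, hq2, mul_one]
  have hqX : q p X = q p (τ : ZMod p) := by
    rw [hX, q_mul, q_mul, hqr, mul_one]
    have : q p ((2 : ZMod p) ^ (r - 1)) = (q p 2) ^ (r - 1) := map_pow (quadraticChar (ZMod p)) 2 (r - 1)
    rw [this, hq2, hs, one_mul]
  have hqY : q p Y = 1 := by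
    have h6 : q p Y = ∏ k ∈ Ico 1 r, q p (((2 * r : ℕ) : ZMod p) * (((2 * r).choose k : ℕ) : ZMod p)) :=
      map_prod (quadraticChar (ZMod p)) _ _
    rw [h6]
    simp only [q_mul]
    rw [Finset.prod_mul_distrib]
    simp only [hqn]
    rw [Finset.prod_const, Nat.card_Ico, hs, one_mul]
    have h7 := prod_choose r hp hr
    rw [Finset.range_eq_Ico, Finset.prod_eq_prod_Ico_succ_bot hr] at h7
    simpa using h7
  have hY0 : Y ≠ 0 := by
    intro h; rw [h, q_zero] at hqY; norm_num at hqY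
  set u : ZMod p := 2 * X * Y⁻¹ with hu
  have hu2 : u ^ 2 = (-1) ^ r := by
    rw [hu]
    have h8 : (2 * X) ^ 2 = (-1) ^ r * Y ^ 2 := by
      obtain ⟨s, hs⟩ : ∃ s, r = s + 1 := ⟨r - 1, by omega⟩
      have h9 : r - 1 = s := by omega
      rw [h9] at hkey
      have h10 : (-1 : ZMod p) ^ r = - (-1) ^ s := by rw [hs, pow_succ]; ring
      have h11 : ((-1 : ZMod p) ^ s) * (-1) ^ s = 1 := by rw [← mul_pow]; simp
      rw [h10]
      linear_combination (4 * (-1) ^ s) * hkey + ((-1) ^ s * Y ^ 2) * hrp - 4 * X ^ 2 * h11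
    rw [mul_pow, h8]
    field_simp
  have hqu : q p u = (-1) ^ r := by
    rcases Nat.even_or_odd r with h | h
    · rw [h.neg_one_pow] at hu2 ⊢
      rcases mul_self_eq_one_iff.mp ((sq u).symm.trans hu2) with h | h
      · rw [h]; simp
      · rw [h]; exact q_neg_one_of_one (by omega)
    · rw [h.neg_one_pow] at hu2
      exact q_of_sq_neg r hp hr hu2
  have hfin : q p u = (-1) ^ r * q p X := by
    rw [hu, q_mul, q_mul, q_inv, hqY, hq2, mul_one]
  rw [hqu] at hfin
  rw [← hqX]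
  have h12 : ((-1 : ℤ) ^ r) * (-1) ^ r = 1 := by rw [← mul_pow]; simp
  linear_combination (-((-1 : ℤ) ^ r)) * hfin + (1 - q p X) * h12

end residue

end Pool.Agent.R945.JD
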