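import Mathlib
import Pool.Agent.R945.JD.Tau

set_option autoImplicit false
set_option linter.unusedSectionVars false

namespace Pool.Agent.R945.JD

open Finset Matrix Pool.Agent.R945.LD Pool.Agent.R945.CM

variable {p : ℕ} [Fact p.Prime]
variable (r : ℕ) (hp : p = 4 * r + 1) (hr : 0 < r) {g : ZMod p} (hg : IsPrimitiveRoot g (4 * r))

include hp hr hg in
lemma exists_s {d : ZMod p} (hd : q p d = -1) : ∃ s : ZMod (2 * r), d = g * ps r hr hg s := by
  have hd0 : d ≠ 0 := by rintro rfl; rw [q_zero] at hd; norm_num at hd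
  have hg0 := g_ne r hr hg
  have h1 : q p (g⁻¹ * d) = 1 := by rw [q_mul, q_inv, q_g r hp hr hg, hd]; norm_num
  have h2 : g⁻¹ * d ≠ 0 := mul_ne_zero (inv_ne_zero hg0) hd0
  obtain ⟨w, hw⟩ := (quadraticChar_one_iff_isSquare h2).mp h1
  have hw0 : w ≠ 0 := by rintro rfl; rw [mul_zero] at hw; exact h2 hw
  obtain ⟨x, hx, _⟩ := exists_pow r hp hr hg hw0
  refine ⟨x, ?_⟩
  rw [hx, sq, ← hw, ← mul_assoc, mul_inv_cancel₀ hg0, one_mul]

lemma q_shift (x s : ZMod (2 * r)) : q p (ps r hr hg x + g * ps r hr hg s) = f1 r hr hg (x - s) := by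
  have : NeZero (2 * r) := ⟨by omega⟩
  have e : ps r hr hg x + g * ps r hr hg s = ps r hr hg s * (ps r hr hg (x - s) + g) := by
    have : ps r hr hg x = ps r hr hg s * ps r hr hg (x - s) := by
      rw [← AddChar.map_add_eq_mul]; congr 1; ring
    rw [this]; ring
  rw [e, q_mul, q_ps, one_mul, f1]

include hp hr hg in
/-- the indexing bijection -/
lemma exists_sigma : ∃ σ : Fin (2 * r) → ZMod (2 * r), Function.Bijective σ ∧
    (∀ i, ps r hr hg (σ i) = ((i.val : ZMod p) + 1) ^ 2) ∧
    (∀ i, q p ((i.val : ZMod p) + 1) = (-1) ^ (σ i).val) := by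
  have : NeZero (2 * r) := ⟨by omega⟩
  have hne : ∀ i : Fin (2 * r), ((i.val : ZMod p) + 1) ≠ 0 := by
    intro i
    have := i.2
    have h := cast_ne (p := p) (k := i.val + 1) (by omega) (by omega)
    push_cast at h
    exact h
  have h1 : ∀ i : Fin (2 * r), ∃ x : ZMod (2 * r), ps r hr hg x = ((i.val : ZMod p) + 1) ^ 2 ∧
      q p ((i.val : ZMod p) + 1) = (-1) ^ x.val := fun i => exists_pow r hp hr hg (hne i)
  choose σ hσ1 hσ2 using h1
  refine ⟨σ, ?_, hσ1, hσ2⟩
  rw [Fintype.bijective_iff_injective_and_card]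
  refine ⟨?_, by rw [Fintype.card_fin, ZMod.card]⟩
  intro i j hij
  have h2 : ((i.val : ZMod p) + 1) ^ 2 = ((j.val : ZMod p) + 1) ^ 2 := by rw [← hσ1, ← hσ1, hij]
  have hi := i.2
  have hj := j.2
  rcases sq_eq_sq_iff_eq_or_eq_neg.mp h2 with h | h
  · have h3 : (i.val : ZMod p) = (j.val : ZMod p) := by linear_combination h
    have := congrArg ZMod.val h3
    rw [ZMod.val_natCast_of_lt (by omega), ZMod.val_natCast_of_lt (by omega)] at this
    exact Fin.ext this
  · exfalso
    apply cast_ne (p := p) (k := i.val + 1 + (j.val + 1)) (by omega) (by omega)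
    push_cast
    linear_combination h

/-- the main computation -/
theorem main (p : ℕ) [Fact p.Prime] (r : ℕ) (hp : p = 4 * r + 1) (m : ℕ) (hm : m + 1 = 2 * r) :
    ∃ t : ℕ, legendreSym p t = 1 ∧ ∀ d : ℤ, legendreSym p d = -1 →
      (Matrix.of fun j k : Fin (m + 2) => legendreSym p ((j : ℤ) ^ 2 + d * (k : ℤ) ^ 2)).det =
        2 ^ m * ((r : ℤ) * t) ^ 2 *
          ∑ x ∈ Icc 1 (m + 1), legendreSym p ((x : ℤ) * ((x : ℤ) ^ 2 + d)) ∧
      4 * (Matrix.of fun j k : Fin m => legendreSym p (((j : ℤ) + 2) ^ 2 + d * ((k : ℤ) + 2) ^ 2)).det =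
        2 ^ m * (t : ℤ) ^ 2 *
          ∑ x ∈ Icc 1 (m + 1), legendreSym p ((x : ℤ) * ((x : ℤ) ^ 2 + d)) := by
  have hr : 0 < r := by omega
  have hnz : NeZero (2 * r) := ⟨by omega⟩
  obtain ⟨g, hg⟩ := exists_g r hp
  set f := f1 r hr hg with hf
  have hfa : ∀ x, f (1 - x) = - f x := f1_anti r hp hr hg
  have hfs : ∑ x : ZMod (2 * r), f x = 0 := sum_f_zero f hfa
  have hqt : q p ((tau (2 * r) r hr f : ℤ) : ZMod p) = 1 := q_tau r hp hr hg
  set τ := tau (2 * r) r hr f with hτ
  refine ⟨τ.natAbs, ?_, ?_⟩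
  · rcases Int.natAbs_eq τ with h | h
    · have h2 : ((τ.natAbs : ℕ) : ℤ) = τ := h.symm
      rw [h2]; exact hqt
    · have h2 : ((τ.natAbs : ℕ) : ℤ) = -τ := by omega
      rw [h2]
      have : q p ((-τ : ℤ) : ZMod p) = 1 := by
        push_cast
        rw [q_neg, q_neg_one_of_one (by omega), hqt]; norm_num
      exact this
  · intro d hd
    have hd' : q p (d : ZMod p) = -1 := hd
    obtain ⟨s, hs⟩ := exists_s r hp hr hg hd'
    obtain ⟨σ, hσb, hσ1, hσ2⟩ := exists_sigma r hp hr hg
    obtain ⟨e, he⟩ : ∃ e : Fin (m + 1) ≃ ZMod (2 * r), ∀ i : Fin (m + 1),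
        ps r hr hg (e i) = ((i.val : ZMod p) + 1) ^ 2 ∧ q p ((i.val : ZMod p) + 1) = (-1) ^ (e i).val := by
      refine ⟨(finCongr hm).trans (Equiv.ofBijective σ hσb), ?_⟩
      intro i
      exact ⟨hσ1 (finCongr hm i), hσ2 (finCongr hm i)⟩
    -- entries
    set M : Matrix (Fin (m + 1)) (Fin (m + 1)) ℤ := Matrix.of fun i j => f (e i - e j - s) with hM
    have hent : ∀ i j : Fin (m + 1), legendreSym p (((i.val : ℤ) + 1) ^ 2 + d * ((j.val : ℤ) + 1) ^ 2) = M i j := by
      intro i j
      have h1 : legendreSym p (((i.val : ℤ) + 1) ^ 2 + d * ((j.val : ℤ) + 1) ^ 2) =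
          q p (((i.val : ZMod p) + 1) ^ 2 + (d : ZMod p) * ((j.val : ZMod p) + 1) ^ 2) := by
        unfold legendreSym; push_cast; rfl
      rw [h1, ← (he i).1, ← (he j).1, hs, hM]
      simp only [Matrix.of_apply]
      rw [hf, ← q_shift]
      have e2 : ps r hr hg (e i) + g * ps r hr hg s * ps r hr hg (e j) =
          ps r hr hg (e j) * (ps r hr hg (e i - e j) + g * ps r hr hg s) := by
        have : ps r hr hg (e i) = ps r hr hg (e j) * ps r hr hg (e i - e j) := by
          rw [← AddChar.map_add_eq_mul]; congr 1; ring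
        rw [this]; ring
      rw [e2, q_mul, q_ps, one_mul]
    have hrow : ∀ i, ∑ j, M i j = 0 := by
      intro i
      rw [← hfs]
      exact Fintype.sum_equiv (e.trans (Equiv.subLeft (e i - s))) _ _ (fun j => by
        rw [hM, Matrix.of_apply, Equiv.trans_apply, Equiv.subLeft_apply]; congr 1; ring)
    have hcol : ∀ j, ∑ i, M i j = 0 := by
      intro j
      rw [← hfs]
      exact Fintype.sum_equiv (e.trans (Equiv.subRight (e j + s))) _ _ (fun i => by
        rw [hM, Matrix.of_apply, Equiv.trans_apply, Equiv.subRight_apply]; congr 1; ring)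
    have hM0 : M.det = 0 := by
      rw [← Matrix.exists_mulVec_eq_zero_iff]
      refine ⟨fun _ => 1, ?_, ?_⟩
      · intro h
        have := congrFun h 0
        simp at this
      · funext i
        simp only [Matrix.mulVec, dotProduct, mul_one, Pi.zero_apply]
        exact hrow i
    -- B
    have hB : ∑ x ∈ Icc 1 (m + 1), legendreSym p ((x : ℤ) * ((x : ℤ) ^ 2 + d)) =
        ∑ x : ZMod (2 * r), f (x - s) * (-1) ^ x.val := by
      have h1 : ∑ x ∈ Icc 1 (m + 1), legendreSym p ((x : ℤ) * ((x : ℤ) ^ 2 + d)) =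
          ∑ i : Fin (m + 1), legendreSym p (((i.val : ℤ) + 1) * (((i.val : ℤ) + 1) ^ 2 + d)) := by
        rw [Fin.sum_univ_eq_sum_range (fun i : ℕ => legendreSym p (((i : ℤ) + 1) * (((i : ℤ) + 1) ^ 2 + d)))]
        have : Icc 1 (m + 1) = Ico 1 (m + 2) := by ext; simp; omega
        rw [this, Finset.sum_Ico_eq_sum_range]
        apply Finset.sum_congr rfl
        intro i _
        push_cast
        congr 1
        ring
      rw [h1]
      apply Fintype.sum_equiv e
      intro i
      have h2 : legendreSym p (((i.val : ℤ) + 1) * (((i.val : ℤ) + 1) ^ 2 + d)) =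
          q p (((i.val : ZMod p) + 1) * (((i.val : ZMod p) + 1) ^ 2 + (d : ZMod p))) := by
        unfold legendreSym; push_cast; rfl
      rw [h2, q_mul, (he i).2, ← (he i).1, hs, q_shift, hf]
      ring
    have hdet : (Matrix.of fun i j => M i j + 1).det =
        2 * (∑ x ∈ Icc 1 (m + 1), legendreSym p ((x : ℤ) * ((x : ℤ) ^ 2 + d))) *
          (2 ^ (r - 1) * r * τ) ^ 2 := by
      have h1 : (Matrix.of fun i j => M i j + 1) =
          (Matrix.of fun x y : ZMod (2 * r) => f (x - y - s) + 1).submatrix e e := by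
        ext i j; simp [hM]
      rw [h1, Matrix.det_submatrix_equiv_self, det_int r rfl hr f hfa s, hB,
        Q1_tau (2 * r) r rfl hr f hfa (f1_pm r hp hr hg), ← hτ]
    have hmin := CD.det_add_ones M hrow hcol
    have hT : (Matrix.of fun j k : Fin (m + 2) => legendreSym p ((j : ℤ) ^ 2 + d * (k : ℤ) ^ 2)) =
        bd 0 (fun _ => -1) (fun _ => 1) M := by
      apply eq_bd
      · simp
      · intro k
        have h0 : ((k.val : ℤ) + 1 : ℤ) = ((k.val + 1 : ℕ) : ℤ) := by push_cast; rfl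
        have h1 : legendreSym p (((0 : Fin (m + 2)) : ℤ) ^ 2 + d * ((k.succ : Fin (m + 2)) : ℤ) ^ 2) =
            legendreSym p (d * ((k.val : ℤ) + 1) ^ 2) := by
          simp
        rw [Matrix.of_apply, h1, legendreSym.mul, hd, h0, legendreSym.sq_one']
        · norm_num
        · have := k.2
          have h := cast_ne (p := p) (k := k.val + 1) (by omega) (by omega)
          push_cast at h ⊢
          exact h
      · intro j
        have h0 : ((j.val : ℤ) + 1 : ℤ) = ((j.val + 1 : ℕ) : ℤ) := by push_cast; rfl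
        have h1 : legendreSym p (((j.succ : Fin (m + 2)) : ℤ) ^ 2 + d * ((0 : Fin (m + 2)) : ℤ) ^ 2) =
            legendreSym p (((j.val : ℤ) + 1) ^ 2) := by
          simp
        rw [Matrix.of_apply, h1, h0, legendreSym.sq_one']
        have := j.2
        have h := cast_ne (p := p) (k := j.val + 1) (by omega) (by omega)
        push_cast at h ⊢
        exact h
      · intro j k
        rw [Matrix.of_apply, ← hent]
        simp
    have hD : (Matrix.of fun j k : Fin m => legendreSym p (((j : ℤ) + 2) ^ 2 + d * ((k : ℤ) + 2) ^ 2)) =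
        M.submatrix Fin.succ Fin.succ := by
      ext j k
      rw [Matrix.of_apply, Matrix.submatrix_apply, ← hent]
      simp only [Fin.val_succ]
      push_cast
      congr 1
      try ring
    have hpow : (2 : ℤ) * (2 ^ (r - 1)) ^ 2 = 2 ^ m := by
      rw [← pow_mul, ← pow_succ']
      congr 1
      omega
    have habs : ((τ.natAbs : ℕ) : ℤ) ^ 2 = τ ^ 2 := Int.natAbs_sq τ
    set B := ∑ x ∈ Icc 1 (m + 1), legendreSym p ((x : ℤ) * ((x : ℤ) ^ 2 + d)) with hBdef
    constructor
    · rw [hT, bd_zero, hM0, sub_zero]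
      have e3 : (Matrix.of fun j k : Fin (m + 1) => M j k - (1 : ℤ) * -1) = Matrix.of fun i j => M i j + 1 := by
        ext i j; simp
      rw [e3, hdet, mul_pow (r : ℤ) ((τ.natAbs : ℕ) : ℤ) 2, habs]
      linear_combination ((r : ℤ) ^ 2 * τ ^ 2 * B) * hpow
    · rw [hD, habs]
      have hr2 : ((r : ℤ)) ^ 2 ≠ 0 := by
        have : (r : ℤ) ≠ 0 := by omega
        exact pow_ne_zero _ this
      apply mul_left_cancel₀ hr2
      rw [hdet] at hmin
      have hm2 : (m : ℤ) + 1 = 2 * r := by exact_mod_cast hm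
      rw [hm2] at hmin
      linear_combination (-1 : ℤ) * hmin + ((r : ℤ) ^ 2 * τ ^ 2 * B) * hpow

end Pool.Agent.R945.JD
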